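import Pool.Agent.Helper46.NU.Names
import Pool.Agent.Helper46.FL.Lib

/-!
# MP_1fe1ca_lc: packet PAR

Pairs in the Boolean-valued universe.
-/

noncomputable section

namespace NU.PkPAR

open Pool.Agent.Helper97.Ku
open Pool.Agent.Helper46

theorem mem_upr {L : Type} [CompleteBooleanAlgebra L] (a b x : BSet L) :
    x.mem (upr a b) = x.eq a ⊔ x.eq b := by
  rw [upr, BSet.mem_mk]
  apply le_antisymm
  · refine iSup_le fun t => ?_
    rcases t with ⟨_ | _⟩
    · simp
    · simp
  · apply sup_le
    · refine le_trans ?_ (le_iSup _ (ULift.up true))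
      simp
    · refine le_trans ?_ (le_iSup _ (ULift.up false))
      simp

theorem eq_iff {L : Type} [CompleteBooleanAlgebra L] (x y : BSet L) :
    x.eq y = ⨅ t : BSet L, iffV (t.mem x) (t.mem y) := by
  rw [BSet.eq_iff_ext]
  rfl

theorem pr1 {L : Type} [CompleteBooleanAlgebra L] (z a b : BSet L) :
    prV z a b = z.eq (kpr a b) := by
  rw [eq_iff z, prV]
  refine iInf_congr fun t => ?_
  rw [kpr, mem_upr, eq_iff t (upr a a), eq_iff t (upr a b)]
  congr 2
  · refine iInf_congr fun s => ?_
    rw [mem_upr, sup_idem]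
  · refine iInf_congr fun s => ?_
    rw [mem_upr]

theorem par : G_PAR := by
  intro L _
  refine ⟨pr1, ?_, ?_⟩
  · intro a b c d
    by_cases hL : (⊤ : L) = ⊥
    · have h1 : ∀ x y : L, x = y := by
        intro x y
        have hx : x = ⊥ := le_bot_iff.1 (hL ▸ le_top)
        have hy : y = ⊥ := le_bot_iff.1 (hL ▸ le_top)
        rw [hx, hy]
      exact h1 _ _
    · obtain ⟨U, hU⟩ := FL.ufex L ⊤ hL
      exact (FL.prn L U).2.1 a b c d
  · intro f a b
    rw [apV]
    apply le_antisymm
    · refine iSup_le fun z => ?_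
      rw [pr1, inf_comm]
      exact BSet.mem_congr_left z (kpr a b) f
    · refine le_trans ?_ (le_iSup _ (kpr a b))
      rw [pr1, BSet.eq_refl, inf_top_eq]

end NU.PkPAR

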