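import Pool.Agent.Helper46.NU.Goals1

/-!
Products of discrete spaces are Baire spaces.
-/

set_option autoImplicit false

open Set

namespace NU.PkBAI

def cyl {ι X : Type} (F : Finset ι) (φ : ι → X) : Set (ι → X) := {ψ | ∀ i ∈ F, ψ i = φ i}

theorem isOpen_cyl {ι X : Type} [TopologicalSpace X] [DiscreteTopology X] (F : Finset ι)
    (φ : ι → X) : IsOpen (cyl F φ) := by
  have h : cyl F φ = (F : Set ι).pi (fun i => {φ i}) := by
    ext ψ
    simp [cyl, Set.mem_pi]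
  rw [h]
  exact isOpen_set_pi F.finite_toSet (fun i _ => isOpen_discrete _)

theorem exists_cyl {ι X : Type} [TopologicalSpace X] (U : Set (ι → X))
    (hU : IsOpen U) (φ : ι → X) (hφ : φ ∈ U) : ∃ F : Finset ι, cyl F φ ⊆ U := by
  obtain ⟨I, u, h1, h2⟩ := isOpen_pi_iff.1 hU φ hφ
  refine ⟨I, fun ψ hψ => h2 ?_⟩
  intro i hi
  have := hψ i hi
  rw [this]
  exact (h1 i hi).2

theorem step {ι X : Type} [TopologicalSpace X] [DiscreteTopology X] (U : Set (ι → X))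
    (hU : IsOpen U) (hd : Dense U) (s : Finset ι × (ι → X)) :
    ∃ s' : Finset ι × (ι → X), s.1 ⊆ s'.1 ∧ (∀ i ∈ s.1, s'.2 i = s.2 i) ∧
      cyl s'.1 s'.2 ⊆ U := by
  classical
  obtain ⟨φ', h1, h2⟩ := dense_iff_inter_open.1 hd (cyl s.1 s.2) (isOpen_cyl _ _)
    ⟨s.2, fun i _ => rfl⟩
  obtain ⟨G, hG⟩ := exists_cyl U hU φ' h2
  refine ⟨(s.1 ∪ G, φ'), Finset.subset_union_left, h1, ?_⟩
  intro ψ hψ
  exact hG fun i hi => hψ i (Finset.mem_union_right _ hi)

theorem bai : G_BAI := by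
  intro ι X _ _
  classical
  refine ⟨fun f hf hd => ?_⟩
  rw [dense_iff_inter_open]
  intro U hU hne
  obtain ⟨φ0, hφ0⟩ := hne
  obtain ⟨F0, hF0⟩ := exists_cyl U hU φ0 hφ0
  choose g hg1 hg2 hg3 using fun n : ℕ => fun s : Finset ι × (ι → X) =>
    step (f n) (hf n) (hd n) s
  let s : ℕ → Finset ι × (ι → X) := fun n => Nat.rec (F0, φ0) (fun n t => g n t) n
  have hs : ∀ n, s (n + 1) = g n (s n) := fun n => rfl
  have hmono : ∀ n m, n ≤ m → (s n).1 ⊆ (s m).1 ∧ ∀ i ∈ (s n).1, (s m).2 i = (s n).2 i := by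
    intro n m hnm
    induction m, hnm using Nat.le_induction with
    | base => exact ⟨subset_refl _, fun i _ => rfl⟩
    | succ m hm ih =>
      refine ⟨ih.1.trans ?_, fun i hi => ?_⟩
      · rw [hs]
        exact hg1 m (s m)
      · rw [hs, hg2 m (s m) i (ih.1 hi)]
        exact ih.2 i hi
  let φ : ι → X := fun i => if h : ∃ n, i ∈ (s n).1 then (s (Nat.find h)).2 i else φ0 i
  have hφ : ∀ n, φ ∈ cyl (s n).1 (s n).2 := by
    intro n i hi
    have h : ∃ n, i ∈ (s n).1 := ⟨n, hi⟩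
    have h1 : φ i = (s (Nat.find h)).2 i := dif_pos h
    rw [h1]
    exact ((hmono (Nat.find h) n (Nat.find_min' h hi)).2 i (Nat.find_spec h)).symm
  refine ⟨φ, hF0 (hφ 0), ?_⟩
  rw [mem_iInter]
  intro n
  exact hg3 n (s n) (hφ (n + 1))

end NU.PkBAI
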